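/-
The free poset with a 4-ary near-unanimity operation over the 4-crown, and the proof that the
antipodal involution has no fixed point on it.
-/
import Mathlib

set_option autoImplicit false

namespace Pool.Agent.H333R3.NU

/-- Terms in one 4-ary operation symbol over the four generators `g l s` (level, sign). -/
inductive T : Type
  | g : Bool → Bool → T
  | f : (Fin 4 → T) → T

namespace T

/-- number of nodes -/
def size : T → ℕ
  | g _ _ => 1
  | f x => 1 + ∑ i, size (x i)

theorem size_lt (x : Fin 4 → T) (i : Fin 4) : (x i).size < (f x).size := by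
  have h : (x i).size ≤ ∑ j, (x j).size :=
    Finset.single_le_sum (f := fun j => (x j).size) (fun _ _ => Nat.zero_le _) (Finset.mem_univ i)
  simp only [size]
  omega

/-- The order, generated by `g false s ≤ g true s'`, monotonicity and the near-unanimity law. -/
inductive Le : T → T → Prop
  | refl (l s : Bool) : Le (g l s) (g l s)
  | crown (s s' : Bool) : Le (g false s) (g true s')
  | mono (x y : Fin 4 → T) : (∀ i, Le (x i) (y i)) → Le (f x) (f y)
  | lower (x : Fin 4 → T) (t : T) (k : Fin 4) : (∀ i, i ≠ k → Le (x i) t) → Le (f x) t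
  | upper (s : T) (y : Fin 4 → T) (k : Fin 4) : (∀ i, i ≠ k → Le s (y i)) → Le s (f y)

theorem le_refl : ∀ t : T, Le t t
  | g l s => Le.refl l s
  | f x => Le.mono x x (fun i => le_refl (x i))

/-- two indices avoid a common one -/
theorem exists_ne_ne (k k' : Fin 4) : ∃ i : Fin 4, i ≠ k ∧ i ≠ k' := by
  revert k k'; decide

theorem exists_ne_ne_ne (k k' k'' : Fin 4) : ∃ i : Fin 4, i ≠ k ∧ i ≠ k' ∧ i ≠ k'' := by
  revert k k' k''; decide

theorem le_trans_aux : ∀ (n : ℕ) (r s t : T), r.size + s.size + t.size ≤ n →
    Le r s → Le s t → Le r t := by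
  intro n
  induction n with
  | zero =>
    intro r s t h
    exfalso
    have : 0 < r.size := by cases r <;> simp [size]
    omega
  | succ n ih =>
    intro r s t h hrs hst
    cases hrs with
    | lower x _ k hx =>
      refine Le.lower x t k (fun i hi => ih (x i) s t ?_ (hx i hi) hst)
      have := size_lt x i
      omega
    | refl l s0 => exact hst
    | crown s0 s0' =>
      cases hst with
      | refl _ _ => exact Le.crown _ _
      | upper _ y k hy =>
        refine Le.upper _ y k (fun i hi => ih _ _ (y i) ?_ (Le.crown _ _) (hy i hi))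
        have := size_lt y i
        omega
    | mono x z hxz =>
      cases hst with
      | mono _ y hzy =>
        refine Le.mono x y (fun i => ih (x i) (z i) (y i) ?_ (hxz i) (hzy i))
        have := size_lt x i
        have := size_lt z i
        have := size_lt y i
        omega
      | lower _ _ k hz =>
        refine Le.lower x t k (fun i hi => ih (x i) (z i) t ?_ (hxz i) (hz i hi))
        have := size_lt x i
        have := size_lt z i
        omega
      | upper _ y k hy =>
        refine Le.upper _ y k (fun i hi => ih _ _ (y i) ?_ (Le.mono x z hxz) (hy i hi))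
        have := size_lt y i
        omega
    | upper _ z k hz =>
      cases hst with
      | mono _ y hzy =>
        refine Le.upper r y k (fun i hi => ih r (z i) (y i) ?_ (hz i hi) (hzy i))
        have := size_lt z i
        have := size_lt y i
        omega
      | lower _ _ k' hz' =>
        obtain ⟨i, hi, hi'⟩ := exists_ne_ne k k'
        refine ih r (z i) t ?_ (hz i hi) (hz' i hi')
        have := size_lt z i
        omega
      | upper _ y k' hy =>
        refine Le.upper _ y k' (fun i hi => ih _ _ (y i) ?_ (Le.upper r z k hz) (hy i hi))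
        have := size_lt y i
        omega

theorem le_trans {r s t : T} (h : Le r s) (h' : Le s t) : Le r t :=
  le_trans_aux _ r s t le_rfl h h'

instance : Preorder T where
  le := Le
  le_refl := le_refl
  le_trans := fun _ _ _ => le_trans

/-- the antipodal involution -/
def sg : T → T
  | g l s => g l (!s)
  | f x => f (fun i => sg (x i))

theorem sg_sg : ∀ t : T, sg (sg t) = t
  | g l s => by simp [sg]
  | f x => by
    simp only [sg]
    congr 1
    funext i
    exact sg_sg (x i)

theorem sg_le {s t : T} (h : Le s t) : Le (sg s) (sg t) := by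
  induction h with
  | refl l s => exact Le.refl _ _
  | crown s s' => exact Le.crown _ _
  | mono x y _ ih => exact Le.mono _ _ ih
  | lower x t k _ ih => exact Le.lower _ _ k ih
  | upper s y k _ ih => exact Le.upper _ _ k ih

theorem size_sg : ∀ t : T, (sg t).size = t.size
  | g l s => by simp [sg, size]
  | f x => by
    simp only [sg, size]
    congr 1
    exact Finset.sum_congr rfl (fun i _ => size_sg (x i))

/-- the order reversing duality -/
def du : T → T
  | g l s => g (!l) s
  | f x => f (fun i => du (x i))

theorem du_du : ∀ t : T, du (du t) = t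
  | g l s => by simp [du]
  | f x => by
    simp only [du]
    congr 1
    funext i
    exact du_du (x i)

theorem du_le {s t : T} (h : Le s t) : Le (du t) (du s) := by
  induction h with
  | refl l s => exact Le.refl _ _
  | crown s s' => exact Le.crown _ _
  | mono x y _ ih => exact Le.mono _ _ ih
  | lower x t k _ ih => exact Le.upper _ _ k ih
  | upper s y k _ ih => exact Le.lower _ _ k ih

theorem size_du : ∀ t : T, (du t).size = t.size
  | g l s => by simp [du, size]
  | f x => by
    simp only [du, size]
    congr 1
    exact Finset.sum_congr rfl (fun i _ => size_du (x i))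

/-- the set of subterms -/
def subs : T → Set T
  | g l s => {g l s}
  | f x => {f x} ∪ ⋃ i, subs (x i)

theorem self_mem_subs (t : T) : t ∈ subs t := by
  cases t <;> simp [subs]

theorem subs_finite : ∀ t : T, (subs t).Finite
  | g l s => by simp [subs]
  | f x => by
    simp only [subs]
    exact (Set.finite_singleton _).union (Set.finite_iUnion (fun i => subs_finite (x i)))

theorem subs_size : ∀ t : T, ∀ w ∈ subs t, w = t ∨ w.size < t.size
  | g l s, w, hw => by
    left
    simpa [subs] using hw
  | f x, w, hw => by
    simp only [subs, Set.mem_union, Set.mem_singleton_iff, Set.mem_iUnion] at hw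
    rcases hw with hw | ⟨i, hi⟩
    · exact Or.inl hw
    · right
      have h1 := size_lt x i
      rcases subs_size (x i) w hi with h | h
      · rw [h]; exact h1
      · omega

/-- `x` is compound and at least three of its four arguments are below `s` -/
def TypeII (s x : T) : Prop := ∃ (y : Fin 4 → T) (k : Fin 4), x = f y ∧ ∀ i, i ≠ k → Le (y i) s

/-- atoms of `s` -/
def Atom (s x : T) : Prop := Le x s ∧ ¬ TypeII s x

theorem TypeII.le {s x : T} (h : TypeII s x) : Le x s := by
  obtain ⟨y, k, rfl, hy⟩ := h
  exact Le.lower y s k hy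

/-- An atom below a type II element `f x` is below at least three of its arguments. -/
theorem atom_le {s : T} {x : Fin 4 → T} {k : Fin 4} (hx : ∀ i, i ≠ k → Le (x i) s) {y : T}
    (hy : Atom s y) (h : Le y (f x)) : ∃ k', ∀ i, i ≠ k' → Le y (x i) := by
  have hxs : Le (f x) s := Le.lower x s k hx
  cases h with
  | mono z _ hz =>
    exact absurd ⟨z, k, rfl, fun i hi => le_trans (hz i) (hx i hi)⟩ hy.2
  | lower z _ k' hz =>
    exact absurd ⟨z, k', rfl, fun i hi => le_trans (hz i hi) hxs⟩ hy.2
  | upper _ _ k' hz => exact ⟨k', hz⟩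

/-- Directedness of atoms. -/
theorem directed {s : T} : ∀ x : T, TypeII s x → ∀ y y' : T, Atom s y → Atom s y' →
    Le y x → Le y' x → ∃ w ∈ subs x, Atom s w ∧ Le y w ∧ Le y' w := by
  intro x
  induction x with
  | g l s0 =>
    rintro ⟨y, k, h, _⟩
    exact absurd h (by simp)
  | f x ih =>
    rintro ⟨x', k, h, hx⟩ y y' hy hy' hyx hyx'
    cases h
    obtain ⟨k1, h1⟩ := atom_le hx hy hyx
    obtain ⟨k2, h2⟩ := atom_le hx hy' hyx'
    obtain ⟨i, hi, hi1, hi2⟩ := exists_ne_ne_ne k k1 k2
    by_cases hc : TypeII s (x i)
    · obtain ⟨w, hw, hw'⟩ := ih i hc y y' hy hy' (h1 i hi1) (h2 i hi2)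
      refine ⟨w, ?_, hw'⟩
      simp only [subs, Set.mem_union, Set.mem_iUnion]
      exact Or.inr ⟨i, hw⟩
    · refine ⟨x i, ?_, ⟨hx i hi, hc⟩, h1 i hi1, h2 i hi2⟩
      simp only [subs, Set.mem_union, Set.mem_iUnion]
      exact Or.inr ⟨i, self_mem_subs _⟩

theorem exists_atom {s : T} : ∀ x : T, Le x s → ∃ w ∈ subs x, Atom s w := by
  intro x
  induction x with
  | g l s0 =>
    intro h
    refine ⟨_, self_mem_subs _, h, ?_⟩
    rintro ⟨y, k, h', _⟩
    exact absurd h' (by simp)
  | f x ih =>
    intro h
    by_cases hc : TypeII s (f x)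
    · obtain ⟨x', k, h', hx⟩ := hc
      cases h'
      obtain ⟨i, hi, _⟩ := exists_ne_ne k k
      obtain ⟨w, hw, hw'⟩ := ih i (hx i hi)
      refine ⟨w, ?_, hw'⟩
      simp only [subs, Set.mem_union, Set.mem_iUnion]
      exact Or.inr ⟨i, hw⟩
    · exact ⟨_, self_mem_subs _, h, hc⟩

/-- Key lemma: a term above three of its four arguments is equivalent to a smaller term. -/
theorem key_lower {s : T} (hs : TypeII s s) : ∃ w : T, w.size < s.size ∧ Le w s ∧ Le s w := by
  have hfin : ({w | w ∈ subs s ∧ Atom s w} : Set T).Finite :=
    (subs_finite s).subset (fun w hw => hw.1)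
  have hne : ({w | w ∈ subs s ∧ Atom s w} : Set T).Nonempty := by
    obtain ⟨w, hw, hw'⟩ := exists_atom s (le_refl s)
    exact ⟨w, hw, hw'⟩
  obtain ⟨w0, hw0⟩ := hfin.exists_maximal hne
  have hw0m := hw0.1
  have hmax : ∀ y, Atom s y → Le y w0 := by
    intro y hy
    obtain ⟨w, hw, hwa, hyw, hw0w⟩ := directed s hs y w0 hy hw0m.2 hy.1 hw0m.2.1
    have h3 : Le w w0 := hw0.2 ⟨hw, hwa⟩ hw0w
    exact le_trans hyw h3
  have hall : ∀ x : T, Le x s → Le x w0 := by
    intro x
    induction x with
    | g l s0 =>
      intro h
      refine hmax _ ⟨h, ?_⟩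
      rintro ⟨y, k, h', _⟩
      exact absurd h' (by simp)
    | f x ih =>
      intro h
      by_cases hc : TypeII s (f x)
      · obtain ⟨x', k, h', hx⟩ := hc
        cases h'
        exact Le.lower _ _ k (fun i hi => ih i (hx i hi))
      · exact hmax _ ⟨h, hc⟩
  refine ⟨w0, ?_, hw0m.2.1, hall s (le_refl s)⟩
  rcases subs_size s w0 hw0m.1 with h | h
  · exact absurd (h ▸ hs) hw0m.2.2
  · exact h

/-- Dual key lemma. -/
theorem key_upper {x : Fin 4 → T} {k : Fin 4} (hx : ∀ i, i ≠ k → Le (f x) (x i)) :
    ∃ w : T, w.size < (f x).size ∧ Le w (f x) ∧ Le (f x) w := by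
  have h : TypeII (du (f x)) (du (f x)) := by
    refine ⟨fun i => du (x i), k, by simp [du], fun i hi => ?_⟩
    exact du_le (hx i hi)
  obtain ⟨w, h1, h2, h3⟩ := key_lower h
  refine ⟨du w, ?_, ?_, ?_⟩
  · rw [size_du]
    rw [size_du] at h1
    exact h1
  · have := du_le h3
    rwa [du_du] at this
  · have := du_le h2
    rwa [du_du] at this

/-- The involution has no (pre-)fixed point. -/
theorem no_fixed : ∀ (n : ℕ) (t : T), t.size ≤ n → ¬ Le (sg t) t := by
  intro n
  induction n with
  | zero =>
    intro t h
    exfalso
    have : 0 < t.size := by cases t <;> simp [size]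
    omega
  | succ n ih =>
    intro t hn h
    have h' : Le t (sg t) := by
      have := sg_le h
      rwa [sg_sg] at this
    -- no smaller equivalent term
    have hno : ¬ ∃ w : T, w.size < t.size ∧ Le w t ∧ Le t w := by
      rintro ⟨w, h1, h2, h3⟩
      refine ih w (by omega) ?_
      exact le_trans (sg_le h2) (le_trans h h3)
    cases t with
    | g l s =>
      cases s <;> cases l <;> (simp only [sg, Bool.not_false, Bool.not_true] at h; cases h)
    | f x =>
      have hsg : sg (f x) = f (fun i => sg (x i)) := rfl
      rw [hsg] at h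
      cases h with
      | mono _ _ hm =>
        refine ih (x 0) ?_ (hm 0)
        have := size_lt x 0
        omega
      | lower _ _ k hl =>
        apply hno
        apply key_lower
        refine ⟨x, k, rfl, fun i hi => ?_⟩
        have h1 := sg_le (hl i hi)
        rw [sg_sg] at h1
        refine le_trans h1 ?_
        rw [hsg]
        exact Le.lower _ _ k hl
      | upper _ _ k hu =>
        apply hno
        refine key_upper (k := k) (fun i hi => ?_)
        exact le_trans h' (hu i hi)

end T

end Pool.Agent.H333R3.NU
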